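import Mathlib

set_option autoImplicit false

open Filter Topology

namespace Pool.Agent.Results.MP_1d57ab_an.NotHereditary

universe u

/-- a Furstenberg family: nonempty sets of natural numbers, hereditary upwards -/
def IsFurstenberg (F : Set (Set ℕ)) : Prop :=
  (∀ A ∈ F, A.Nonempty) ∧ ∀ A ∈ F, ∀ B : Set ℕ, A ⊆ B → B ∈ F

/-- the visit set -/
def visits {X : Type*} (T : X → X) (x : X) (V : Set X) : Set ℕ := {n | T^[n] x ∈ V}

/-- `F`-hypercyclic maps -/
def IsHyp {X : Type*} [TopologicalSpace X] (F : Set (Set ℕ)) (T : X → X) : Prop :=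
  ∃ x : X, ∀ V : Set X, IsOpen V → V.Nonempty → visits T x V ∈ F

/-- hereditarily `F`-hypercyclic maps -/
def IsHerHyp {X : Type*} [TopologicalSpace X] (F : Set (Set ℕ)) (T : X → X) : Prop :=
  ∀ (ι : Type) (_ : Countable ι) (V : ι → Set X) (A : ι → Set ℕ),
    (∀ i, IsOpen (V i) ∧ (V i).Nonempty) → (∀ i, A i ∈ F) →
      ∃ x : X, ∀ i, visits T x (V i) ∩ A i ∈ F

/-- the sets `A_k = {2^(pair k l) : l}` -/
def Ak (k : ℕ) : Set ℕ := Set.range fun l : ℕ => 2 ^ (Nat.pair k l)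

/-- the family -/
def fam : Set (Set ℕ) := {A | ∃ k, Ak k ⊆ A}

theorem fam_furst : IsFurstenberg fam := by
  constructor
  · rintro A ⟨k, hk⟩
    exact ⟨_, hk ⟨0, rfl⟩⟩
  · rintro A ⟨k, hk⟩ B hAB
    exact ⟨k, hk.trans hAB⟩

theorem Ak_disj {k k' n : ℕ} (h : n ∈ Ak k) (h' : n ∈ Ak k') : k = k' := by
  obtain ⟨l, rfl⟩ := h
  obtain ⟨l', h'⟩ := h'
  have h1 : Nat.pair k' l' = Nat.pair k l := Nat.pow_right_injective (le_refl 2) h'
  have h2 := congrArg (fun m => (Nat.unpair m).1) h1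
  simpa [Nat.unpair_pair] using h2.symm

section

variable (𝕜 : Type) [RCLike 𝕜]

/-- the backward shift on the space of all sequences -/
def shift : (ℕ → 𝕜) →L[𝕜] (ℕ → 𝕜) :=
  { toFun := fun x n => x (n + 1)
    map_add' := fun _ _ => rfl
    map_smul' := fun _ _ => rfl
    cont := continuous_pi fun n => continuous_apply (n + 1) }

variable {𝕜}

theorem shift_iter (k : ℕ) (x : ℕ → 𝕜) (n : ℕ) : ((shift 𝕜)^[k] x) n = x (n + k) := by
  induction k generalizing x n with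
  | zero => rfl
  | succ k ih =>
    rw [Function.iterate_succ_apply, ih]
    show x (n + k + 1) = _
    rfl

variable (𝕜)

/-- the interpolation property of the shift -/
theorem interp (K : ℕ → Set ℕ) (hK : ∀ j, (K j).Infinite) :
    ∃ x : ℕ → 𝕜, ∀ j, ∀ V : Set (ℕ → 𝕜), IsOpen V → V.Nonempty →
      ∃ k ∈ K j, Ak k ⊆ visits (shift 𝕜) x V := by
  classical
  -- tasks `t = (j, (i, m))`
  let J : ℕ → ℕ := fun t => (Nat.unpair t).1
  let I : ℕ → ℕ := fun t => (Nat.unpair (Nat.unpair t).2).1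
  let M : ℕ → ℕ := fun t => (Nat.unpair (Nat.unpair t).2).2
  obtain ⟨κ, hκ, hP⟩ := Filter.extraction_forall_of_frequently
    (P := fun t k => k ∈ K (J t) ∧ M t ≤ k) (fun t => by
      have h1 : ∃ᶠ k in atTop, k ∈ K (J t) := Nat.frequently_atTop_iff_infinite.2 (hK _)
      exact h1.and_eventually (eventually_ge_atTop (M t)))
  let f : ℕ → (ℕ → 𝕜) := TopologicalSpace.denseSeq (ℕ → 𝕜)
  let x : ℕ → 𝕜 := fun p =>
    if h : ∃ t, κ t = (Nat.unpair (Nat.log 2 p)).1 then f (I h.choose) (p - 2 ^ (Nat.log 2 p)) else 0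
  have hx : ∀ t l r, r < 2 ^ (Nat.pair (κ t) l) → x (r + 2 ^ (Nat.pair (κ t) l)) = f (I t) r := by
    intro t l r hr
    have h3 : Nat.log 2 (r + 2 ^ (Nat.pair (κ t) l)) = Nat.pair (κ t) l := by
      rw [Nat.log_eq_iff (Or.inr ⟨by norm_num, by positivity⟩)]
      constructor
      · omega
      · rw [pow_succ]; omega
    have hex : ∃ t', κ t' = (Nat.unpair (Nat.log 2 (r + 2 ^ (Nat.pair (κ t) l)))).1 :=
      ⟨t, by rw [h3, Nat.unpair_pair]⟩
    have hch : hex.choose = t := by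
      apply hκ.injective
      have := hex.choose_spec
      rw [this, h3, Nat.unpair_pair]
    show (if h : ∃ t', κ t' = (Nat.unpair (Nat.log 2 (r + 2 ^ (Nat.pair (κ t) l)))).1 then _ else _)
      = _
    rw [dif_pos hex, hch, h3, Nat.add_sub_cancel]
  refine ⟨x, fun j V hV hne => ?_⟩
  obtain ⟨_, hf, i, rfl⟩ :=
    (TopologicalSpace.denseRange_denseSeq (ℕ → 𝕜)).inter_open_nonempty V hV hne
  obtain ⟨S, u, hu, hsub⟩ := isOpen_pi_iff.1 hV _ hf
  let m := S.sup id + 1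
  let t := Nat.pair j (Nat.pair i m)
  have hJ : J t = j := by simp [J, t]
  have hI : I t = i := by simp [I, t]
  have hM : M t = m := by simp [M, t]
  refine ⟨κ t, hJ ▸ (hP t).1, ?_⟩
  rintro _ ⟨l, rfl⟩
  show (shift 𝕜)^[2 ^ (Nat.pair (κ t) l)] x ∈ V
  apply hsub
  intro r hr
  have hr' : r < m := Nat.lt_succ_of_le (Finset.le_sup (f := id) hr)
  have h1 : m ≤ κ t := hM ▸ (hP t).2
  have h2 : κ t ≤ Nat.pair (κ t) l := Nat.left_le_pair _ _
  have h3 : Nat.pair (κ t) l < 2 ^ (Nat.pair (κ t) l) := Nat.lt_two_pow_self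
  rw [shift_iter, hx t l r (by omega), hI]
  exact (hu r hr).2

end

/-- For `𝕜 = ℝ` or `ℂ`: there are a Furstenberg family `F` and a continuous linear operator `T` on
an infinite-dimensional Polish topological vector space such that `T` is `F`-hypercyclic, `S ⊕ T` is
`F`-hypercyclic for every `F`-hypercyclic operator `S`, but `T` is not hereditarily
`F`-hypercyclic. -/
theorem result (𝕜 : Type) [RCLike 𝕜] : ∃ (F : Set (Set ℕ)) (X : Type) (_ : AddCommGroup X)
    (_ : Module 𝕜 X) (_ : TopologicalSpace X) (_ : IsTopologicalAddGroup X)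
    (_ : ContinuousSMul 𝕜 X) (_ : PolishSpace X) (T : X →L[𝕜] X),
    IsFurstenberg F ∧ ¬ FiniteDimensional 𝕜 X ∧ IsHyp F T ∧
    (∀ (Y : Type u) (_ : AddCommGroup Y) (_ : Module 𝕜 Y) (_ : TopologicalSpace Y)
      (_ : IsTopologicalAddGroup Y) (_ : ContinuousSMul 𝕜 Y) (_ : PolishSpace Y) (S : Y →L[𝕜] Y),
      ¬ FiniteDimensional 𝕜 Y → IsHyp F S → IsHyp F (S.prodMap T)) ∧
    ¬ IsHerHyp F T := by
  classical
  refine ⟨fam, ℕ → 𝕜, inferInstance, inferInstance, inferInstance, inferInstance, inferInstance,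
    inferInstance, shift 𝕜, fam_furst, ?_, ?_, ?_, ?_⟩
  · intro h
    have h1 : FiniteDimensional 𝕜 (ℕ →₀ 𝕜) :=
      FiniteDimensional.of_injective (Finsupp.lcoeFun : (ℕ →₀ 𝕜) →ₗ[𝕜] (ℕ → 𝕜))
        DFunLike.coe_injective
    have h2 : Finite ℕ := Module.Finite.finite_basis (Finsupp.basisSingleOne (R := 𝕜) (ι := ℕ))
    exact not_finite ℕ
  · obtain ⟨x, hx⟩ := interp 𝕜 (fun _ => Set.univ) (fun _ => Set.infinite_univ)
    refine ⟨x, fun V hV hne => ?_⟩
    obtain ⟨k, -, hk⟩ := hx 0 V hV hne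
    exact ⟨k, hk⟩
  · intro Y _ _ _ _ _ _ S hY hS
    obtain ⟨y, hy⟩ := hS
    have hYn : Nontrivial Y := by
      by_contra hcon
      rw [not_nontrivial_iff_subsingleton] at hcon
      exact hY inferInstance
    have hKinf : ∀ W : Set Y, IsOpen W → W.Nonempty → {k | Ak k ⊆ visits S y W}.Infinite := by
      intro W hW hne hfin
      obtain ⟨w, hw⟩ := hne
      have : (𝓝[≠] w).NeBot := Module.punctured_nhds_neBot 𝕜 Y w
      have hWinf : W.Infinite := infinite_of_mem_nhds w (hW.mem_nhds hw)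
      obtain ⟨s, hs, hcard⟩ := hWinf.exists_subset_card_eq (hfin.toFinset.card + 1)
      obtain ⟨U, hU, hdisj⟩ := s.finite_toSet.t2_separation
      have hk : ∀ a : Y, ∃ k, a ∈ s → Ak k ⊆ visits S y (W ∩ U a) := by
        intro a
        by_cases ha : a ∈ s
        · obtain ⟨k, hk⟩ := hy (W ∩ U a) (hW.inter (hU a).2) ⟨a, hs ha, (hU a).1⟩
          exact ⟨k, fun _ => hk⟩
        · exact ⟨0, fun h => absurd h ha⟩
      choose k hk using hk
      have hle : s.card ≤ hfin.toFinset.card := by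
        refine Finset.card_le_card_of_injOn k ?_ ?_
        · intro a ha
          rw [Finset.mem_coe, Set.Finite.mem_toFinset]
          exact (hk a ha).trans fun n hn => hn.1
        · intro a ha b hb hab
          by_contra hne
          have h1 := hk a ha (Set.mem_range_self 0)
          have h2 := hk b hb (Set.mem_range_self 0)
          have h3 : S^[2 ^ (Nat.pair (k a) 0)] y ∈ W ∩ U a := h1
          have h4 : S^[2 ^ (Nat.pair (k b) 0)] y ∈ W ∩ U b := h2
          rw [← hab] at h4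
          exact Set.disjoint_left.1 (hdisj ha hb hne) h3.2 h4.2
      omega
    -- a countable base
    obtain ⟨B, hBc, hBe, hB⟩ := TopologicalSpace.exists_countable_basis Y
    have hBne : B.Nonempty := by
      obtain ⟨b, hb, -⟩ := hB.exists_subset_of_mem_open (Set.mem_univ y) isOpen_univ
      exact ⟨b, hb⟩
    obtain ⟨e, he⟩ := hBc.exists_eq_range hBne
    have hee : ∀ j, e j ∈ B := fun j => he ▸ Set.mem_range_self j
    obtain ⟨x, hx⟩ := interp 𝕜 (fun j => {k | Ak k ⊆ visits S y (e j)}) (fun j =>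
      hKinf _ (hB.isOpen (hee j)) (Set.nonempty_iff_ne_empty.2 fun h => hBe (h ▸ hee j)))
    refine ⟨(y, x), fun O hO hne => ?_⟩
    obtain ⟨⟨a, b⟩, hab⟩ := hne
    obtain ⟨W, V, hW, hV, haW, hbV, hWV⟩ := isOpen_prod_iff.1 hO a b hab
    obtain ⟨W', hW'B, -, hW'W⟩ := hB.exists_subset_of_mem_open haW hW
    rw [he] at hW'B
    obtain ⟨j, rfl⟩ := hW'B
    obtain ⟨k, hk1, hk2⟩ := hx j V hV ⟨b, hbV⟩
    refine ⟨k, fun n hn => ?_⟩
    have hn1 : S^[n] y ∈ e j := hk1 hn
    have hn2 : (shift 𝕜)^[n] x ∈ V := hk2 hn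
    show (S.prodMap (shift 𝕜))^[n] (y, x) ∈ O
    rw [ContinuousLinearMap.coe_prodMap', Prod.map_iterate]
    exact hWV ⟨hW'W hn1, hn2⟩
  · intro h
    let V : Bool → Set (ℕ → 𝕜) := fun b => {x | x 0 ∈ Metric.ball (if b then (1 : 𝕜) else 0) (1 / 2)}
    obtain ⟨x, hx⟩ := h Bool inferInstance V (fun _ => Ak 0) (fun b => by
      constructor
      · exact Metric.isOpen_ball.preimage (continuous_apply 0)
      · exact ⟨fun _ => if b then (1 : 𝕜) else 0, Metric.mem_ball_self (by norm_num)⟩)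
      (fun _ => ⟨0, subset_refl _⟩)
    have hmem : ∀ b, (shift 𝕜)^[2 ^ (Nat.pair 0 0)] x ∈ V b := by
      intro b
      obtain ⟨k, hk⟩ := hx b
      have h1 := hk ⟨0, rfl⟩
      have h2 : k = 0 := Ak_disj (k := k) (k' := 0) ⟨0, rfl⟩ h1.2
      subst h2
      exact h1.1
    have h1 : dist (((shift 𝕜)^[2 ^ (Nat.pair 0 0)] x) 0) (1 : 𝕜) < 1 / 2 := hmem true
    have h0 : dist (((shift 𝕜)^[2 ^ (Nat.pair 0 0)] x) 0) (0 : 𝕜) < 1 / 2 := hmem false
    have h2 : dist (0 : 𝕜) 1 = 1 := by rw [dist_eq_norm, zero_sub, norm_neg, norm_one]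
    have h3 := dist_triangle_left (0 : 𝕜) 1 (((shift 𝕜)^[2 ^ (Nat.pair 0 0)] x) 0)
    rw [h2] at h3
    linarith

end Pool.Agent.Results.MP_1d57ab_an.NotHereditary
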